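import Pool.Agent.Lib.MP_e1f7e2_al.FA.Iface

/-!
# FIVE: section 5
-/

set_option autoImplicit false

namespace Pool.Agent.Lib.MP_e1f7e2_al.FA.H27

/-- vertices of minimal degree have no nondivisible planes -/
theorem no_nd {K : Type*} [Field K] {w : Fin 3 → ℝ} (hF : Facts K w) {a b h : A K 3}
    (hfr : Fr a b h) (hd : vd w (sp a b h) ≤ sg w) (hnd : ND w a b) : False := by
  obtain ⟨f, g, h', h1, -, h3, h4, h5, h6⟩ := hF.v.ex a b h hfr
  have h7 := hF.v.eq f g h' h3 h5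
  rw [h6] at h7
  have h8 := (hF.b f g h' h3 h5 (by rw [← h7]; exact hd)).1
  exact h8 (hF.o.ndlin a b f g (hF.f.nc _ _ _ hfr) hnd h4 h1.symm).com

theorem five (K : Type*) [Field K] (w : Fin 3 → ℝ) (_hw : Gen w) (hF : Facts K w)
    (h1 : FivesStatement K w) (h2 : FivefStatement K w) (h3 : FivenStatement K w)
    (h4 : FiveoStatement K w) (h5 : FivetStatement K w) : FiveStatement K w := by
  intro ν a b h hA hB hN hC hfr hred hvd hnd
  rcases le_or_gt ν (sg w) with hs | hs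
  · exact absurd hnd fun hnd => no_nd hF hfr (by rw [hvd]; exact hs) hnd
  rcases h1 ν a b h hA hB hfr hred hvd hs hnd with hg | ⟨l, m, g, c0, hC5, hlin⟩
  · exact hg
  have hfrg : Fr l m g := (hF.f.adjm l m c0 g hC5.fr hC5.q).1
  have hlg : l * g ≠ g * l := hF.f.nc _ _ _ (hF.f.p23 _ _ _ hfrg)
  have key : Gd w l g := by
    by_cases hlm : Dv w l m
    · exact h5 ν l m g c0 hA hB hN hC hC5 hlm
    · by_cases hml : Dv w m l
      · exact h4 ν l m g c0 hA hB hC5 hml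
      · have hND : ND w l m := ⟨hF.f.pos _ _ _ hC5.fr, hF.f.pos _ _ _ (hF.f.p12 _ _ _ hC5.fr),
          h2 ν l m g c0 hC5, hlm, hml⟩
        exact h3 ν l m g c0 hB hN hC5.fr hC5.mn hC5.red hC5.lt hC5.q hC5.dlt hC5.nd hND
  exact hF.o.gdlin l g a b hlg hC5.nd key (hF.o.ndor a b hnd) hlin

end Pool.Agent.Lib.MP_e1f7e2_al.FA.H27
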