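import Pool.Agent.Lib.MP_e1f7e2_al.FA.Iface

/-!
# FIVES: reduction to the situation `C5`
-/

set_option autoImplicit false

namespace Pool.Agent.Lib.MP_e1f7e2_al.FA.H27

/-- two different planes of a vertex have a common nonconstant element -/
theorem common {K : Type*} [Field K] {w : Fin 3 → ℝ} (hF : Facts K w) {a b h f g h' : A K 3}
    (hfr : Fr a b h) (hV : sp a b h = sp f g h') (hne : lin a b ≠ lin f g) :
    ∃ (l m g0 r : A K 3) (c : K), lin l g0 = lin a b ∧ lin l m = lin f g ∧ c ≠ 0 ∧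
      r ∈ lin f g ∧ l ∈ lin f g ∧ g0 = c • h' + r := by
  have ha : a ∈ sp f g h' := by
    rw [← hV, hF.s.spmem]
    exact ⟨1, 0, 0, 0, by simp⟩
  have hb : b ∈ sp f g h' := by
    rw [← hV, hF.s.spmem]
    exact ⟨0, 1, 0, 0, by simp⟩
  rw [hF.s.spmem] at ha hb
  obtain ⟨a1, a2, a3, a4, ha⟩ := ha
  obtain ⟨b1, b2, b3, b4, hb⟩ := hb
  by_cases h0 : a3 = 0 ∧ b3 = 0
  · exfalso
    apply hne
    obtain ⟨h3, h4⟩ := h0
    rw [h3, zero_smul, add_zero] at ha
    rw [h4, zero_smul, add_zero] at hb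
    have hdet : a1 * b2 - a2 * b1 ≠ 0 := by
      intro h0
      have e1 := hF.f.indep a b h b2 (-a2) 0 (a2 * b4 - b2 * a4) hfr (by
        rw [ha, hb]
        have : a1 * b2 = a2 * b1 := sub_eq_zero.1 h0
        match_scalars <;> first | ring1 | linear_combination this)
      have e2 := hF.f.indep a b h b1 (-a1) 0 (a1 * b4 - b1 * a4) hfr (by
        rw [ha, hb]
        have : a1 * b2 = a2 * b1 := sub_eq_zero.1 h0
        match_scalars <;> first | ring1 | linear_combination -this)
      have e3 : a1 = 0 := by simpa using e2.2.1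
      have e4 : a2 = 0 := by simpa using e1.2.1
      have e5 := hF.f.indep a b h 1 0 0 (-a4) hfr (by
        rw [ha, e3, e4]
        module)
      exact one_ne_zero e5.1
    ext r
    rw [hF.s.linmem, hF.s.linmem]
    constructor
    · rintro ⟨x, y, z, rfl⟩
      refine ⟨x * a1 + y * b1, x * a2 + y * b2, x * a4 + y * b4 + z, ?_⟩
      rw [ha, hb]
      module
    · rintro ⟨x, y, z, rfl⟩
      obtain ⟨e, he⟩ : ∃ e, (a1 * b2 - a2 * b1) * e = 1 := ⟨_, mul_inv_cancel₀ hdet⟩
      refine ⟨(x * b2 - y * b1) * e, (y * a1 - x * a2) * e,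
        z - (x * b2 - y * b1) * e * a4 - (y * a1 - x * a2) * e * b4, ?_⟩
      rw [ha, hb]
      match_scalars <;> first | ring1 | linear_combination -x * he | linear_combination -y * he
  · -- the common element
    have hl : b3 • a - a3 • b = (b3 * a1 - a3 * b1) • f + (b3 * a2 - a3 * b2) • g +
        (b3 * a4 - a3 * b4) • 1 := by
      rw [ha, hb]
      module
    have hlmem : b3 • a - a3 • b ∈ lin f g := by
      rw [hF.s.linmem]
      exact ⟨_, _, _, hl⟩
    have hm : ∃ m, lin (b3 • a - a3 • b) m = lin f g := by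
      by_cases h1 : b3 * a1 - a3 * b1 = 0
      · by_cases h2 : b3 * a2 - a3 * b2 = 0
        · exfalso
          apply h0
          have e1 := hF.f.indep a b h b3 (-a3) 0 (-(b3 * a4 - a3 * b4)) hfr (by
            rw [h1, h2, zero_smul, zero_smul, zero_add, zero_add] at hl
            have : b3 • a + -a3 • b + (0 : K) • h + -(b3 * a4 - a3 * b4) • (1 : A K 3) =
                b3 • a - a3 • b - (b3 * a4 - a3 * b4) • (1 : A K 3) := by module
            rw [this, hl, sub_self])
          exact ⟨by simpa using e1.2.1, e1.1⟩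
        · refine ⟨f, ?_⟩
          rw [hl, add_comm ((b3 * a1 - a3 * b1) • f), hF.s.lel g f _ _ _ h2, hF.s.lcomm]
      · refine ⟨g, ?_⟩
        rw [hl, hF.s.lel f g _ _ _ h1]
    obtain ⟨m, hm⟩ := hm
    by_cases h3 : a3 = 0
    · have h4 : b3 ≠ 0 := fun h4 => h0 ⟨h3, h4⟩
      refine ⟨b3 • a - a3 • b, m, b, b1 • f + b2 • g + b4 • 1, b3, ?_, hm, h4, ?_, hlmem, ?_⟩
      · have := hF.s.lel a b b3 (-a3) 0 h4
        rw [← this]
        congr 1
        module
      · rw [hF.s.linmem]
        exact ⟨_, _, _, rfl⟩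
      · rw [hb]
        module
    · refine ⟨b3 • a - a3 • b, m, a, a1 • f + a2 • g + a4 • 1, a3, ?_, hm, h3, ?_, hlmem, ?_⟩
      · have := hF.s.lel b a (-a3) b3 0 (neg_ne_zero.2 h3)
        rw [hF.s.lcomm a b, ← this]
        congr 1
        module
      · rw [hF.s.linmem]
        exact ⟨_, _, _, rfl⟩
      · rw [ha]
        module

theorem fives (K : Type*) [Field K] (w : Fin 3 → ℝ) (_hw : Gen w) (hF : Facts K w) :
    FivesStatement K w := by
  intro ν a b h hA hB hfr hred hvd hs hnd
  generalize hVV : sp a b h = V at hred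
  cases hred with
  | base _ _ hd =>
    exfalso
    rw [← hVV, hvd] at hd
    exact absurd hs (not_lt.2 hd)
  | step _ V' hadj hd hr =>
    obtain ⟨f, g, h', q, hfr', hq, hV, hV'⟩ := hadj
    rw [← hVV, hvd] at hd
    have hV2 : sp a b h = sp f g h' := hVV.trans hV
    by_cases hlin : lin a b = lin f g
    · left
      have h1 : Fr f g (h' + q) := (hF.f.adjm f g h' (h' + q) hfr' (by simpa using hq)).1
      have h2 : Fr a b (h' + q) := hF.f.frlin f g a b _ h1 hlin.symm
      have h3 : sp a b (h' + q) = V' := by rw [hV', hF.s.slin a b f g _ hlin]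
      exact hB a b (h' + q) h2 (by rw [h3]; exact hd) (by rw [h3]; exact hr) hnd
    · right
      obtain ⟨l, m, g0, r, c, hl1, hl2, hc, hr', hlm, hg0⟩ := common hF hfr hV2 hlin
      have hfrlg : Fr l g0 h := hF.f.frlin a b l g0 h hfr hl1.symm
      have hfrlm : Fr l m h' := hF.f.frlin f g l m h' hfr' hl2.symm
      obtain ⟨α, hg1, hg2⟩ := hF.o.exl l g0 (hF.f.nc _ _ _ hfrlg)
      obtain ⟨β, hm1, hm2⟩ := hF.o.exl l m (hF.f.nc _ _ _ hfrlm)
      set g1 := g0 + α • l with hg1def
      set m1 := m + β • l with hm1def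
      have hlm1 : lin l m1 = lin f g := hm2.trans hl2
      have hfr1 : Fr l m1 h' := hF.f.frlin f g l m1 h' hfr' hlm1.symm
      set r1 := r + α • l with hr1
      have hr1m : r1 ∈ lin l m1 := by
        rw [hlm1]
        exact Submodule.add_mem _ hr' (Submodule.smul_mem _ _ hlm)
      have hg1' : g1 = c • h' + r1 := by
        rw [hg1def, hg0, hr1]
        abel
      have hfrg : Fr l m1 g1 := by
        rw [hg1']
        exact hF.f.el l m1 h' r1 c hfr1 hc (hF.s.linB _ _ _ hr1m)
      have hsp1 : sp l m1 g1 = sp a b h := by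
        rw [hg1', hF.s.sel l m1 h' r1 c hc hr1m, hV2, hF.s.slin l m1 f g h' hlm1]
      have hqB : q ∈ B l m1 := by
        rw [hF.s.blin l m1 f g hlm1]
        exact hq
      have hcq : c • q ∈ B l m1 := (B l m1).smul_mem hqB c
      have hspV' : sp l m1 (g1 + c • q) = V' := by
        have e1 : g1 + c • q = c • (h' + q) + r1 := by
          rw [hg1', smul_add]
          abel
        rw [e1, hF.s.sel l m1 (h' + q) r1 c hc hr1m, hV', hF.s.slin l m1 f g _ hlm1]
      obtain ⟨q2, hq2, hmn⟩ := hF.o.mnex l m1 g1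
      have hfrc : Fr l m1 (g1 + q2) := (hF.f.adjm l m1 g1 (g1 + q2) hfrg (by simpa using hq2)).1
      -- the minimal representative of V'
      obtain ⟨h2, hh2, hh2min⟩ := hF.d.minim {x | x - (g1 + c • q) ∈ lin l m1}
        ⟨g1 + c • q, by simp⟩
      have hh2' : h2 - (g1 + c • q) ∈ lin l m1 := hh2
      have hfrq : Fr l m1 (g1 + c • q) :=
        (hF.f.adjm l m1 g1 (g1 + c • q) hfrg (by simpa using hcq)).1
      have hfrh2 : Fr l m1 h2 := by
        exact (hF.f.adjm l m1 (g1 + c • q) h2 hfrq (hF.s.linB _ _ _ hh2')).1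
      have hsph2 : sp l m1 h2 = V' := by
        have := hF.s.sel l m1 (g1 + c • q) (h2 - (g1 + c • q)) 1 one_ne_zero hh2'
        rw [one_smul, add_sub_cancel] at this
        rw [this, hspV']
      have hor3 : Or3 w l m1 h2 := by
        refine hF.o.mn3 l m1 h2 hfrh2 hm1 ?_
        intro s hsm
        refine hh2min (h2 + s) ?_
        show h2 + s - (g1 + c • q) ∈ lin l m1
        have e1 : h2 + s - (g1 + c • q) = (h2 - (g1 + c • q)) + s := by abel
        rw [e1]
        exact Submodule.add_mem _ hh2' hsm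
      have hvdV' : vd w V' = dg w l + dg w m1 + dg w h2 := by
        rw [← hsph2]
        exact hF.v.eq l m1 h2 hfrh2 hor3
      have hc0h2 : dg w (g1 + q2) ≤ dg w h2 := by
        have e1 : h2 = (g1 + q2) + ((h2 - (g1 + c • q)) + c • q - q2) := by abel
        rw [e1]
        exact hmn _ ((B l m1).sub_mem ((B l m1).add_mem (hF.s.linB _ _ _ hh2') hcq) hq2)
      have hle1 := hF.v.le l m1 (g1 + q2) hfrc
      have hle2 := hF.v.le l m1 g1 hfrg
      have hlt : vd w (sp l m1 (g1 + q2)) < ν := by linarith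
      refine ⟨l, m1, g1, g1 + q2, ⟨hfrc, hm1, hmn, ?_, hlt, ?_, ?_, ?_, ?_⟩, hg2.trans hl1⟩
      · have hadj := hF.f.adj' l m1 g1 (c • q) q2 hfrg hcq hq2
        rw [hspV'] at hadj
        exact hA V' _ hd hr hadj
      · have e1 : g1 - (g1 + q2) = -q2 := by abel
        rw [e1]
        exact (B l m1).neg_mem hq2
      · by_contra hcon
        push Not at hcon
        rw [hsp1, hvd] at hle2
        linarith
      · exact hF.o.ndlin a b l g1 (hF.f.nc _ _ _ hfr) hnd hg1 (hg2.trans hl1).symm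
      · rw [hsp1, hvd]

end Pool.Agent.Lib.MP_e1f7e2_al.FA.H27
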