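import Pool.Agent.Lib.MP_e1f7e2_al.FA.Iface

/-!
# LEMALL: the induction of section 4
-/

set_option autoImplicit false

namespace Pool.Agent.Lib.MP_e1f7e2_al.FA.H27

theorem HA.mono {K : Type*} [Field K] {w : Fin 3 → ℝ} {ν ν' : ℝ} (h : HA K w ν) (hν : ν' ≤ ν) :
    HA K w ν' := fun V V' h1 h2 h3 => h V V' (h1.trans_le hν) h2 h3

theorem HB.mono {K : Type*} [Field K] {w : Fin 3 → ℝ} {ν ν' : ℝ} (h : HB K w ν) (hν : ν' ≤ ν) :
    HB K w ν' := fun f g h' h1 h2 h3 h4 => h f g h' h1 (h2.trans_le hν) h3 h4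

theorem lemall (K : Type*) [Field K] (w : Fin 3 → ℝ) (_hw : Gen w) (hF : Facts K w)
    (hn : LemnStatement K w) (hcp : LemcpStatement K w) (hc : LemcStatement K w)
    (hb : LembStatement K w) : LemallStatement K w := by
  intro ν hA hB
  have key : ∀ V : Submodule K (A K 3), Vtx V → ∀ a b c : A K 3, V = sp a b c → Fr a b c →
      Red w V → vd w V < ν → LBat w a b c := by
    refine hF.v.wf _ ?_
    intro V _ ih a b c hV hfr hred hlt
    subst hV
    have hLB : LBlt K w (vd w (sp a b c)) := by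
      intro a' b' c' hfr' hred' hlt'
      exact ih (sp a' b' c') ⟨a', b', c', hfr', rfl⟩ hlt' a' b' c' rfl hfr' hred'
        (hlt'.trans hlt)
    have hA' := HA.mono hA hlt.le
    have hB' := HB.mono hB hlt.le
    exact hb ν a b c hA hB (hn _ hB' hLB) (hc _ (hcp _ hA' hB' hLB)) hlt.le hfr hred
  have hLB : LBlt K w ν := fun a b c hfr hred hlt =>
    key (sp a b c) ⟨a, b, c, hfr, rfl⟩ a b c rfl hfr hred hlt
  exact ⟨hLB, hn ν hB hLB, hc ν (hcp ν hA hB hLB)⟩

end Pool.Agent.Lib.MP_e1f7e2_al.FA.H27
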