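import Pool.Agent.Lib.MP_e1f7e2_al.FA.H27.Five

/-!
# LEMB: Lemma B from the two cases
-/

set_option autoImplicit false

namespace Pool.Agent.Lib.MP_e1f7e2_al.FA.H27

theorem Df_comm {K : Type*} [Field K] {w : Fin 3 → ℝ} (hF : Facts K w) (x y : A K 3) :
    Df w x y = Df w y x := by
  unfold Df
  rw [hF.e.comm x y]
  ring

/-- transport of small defects -/
theorem Df_tr {K : Type*} [Field K] {w : Fin 3 → ℝ} (hF : Facts K w) {c x y : A K 3}
    (hcx : c * x ≠ x * c) (hcy : c * y ≠ y * c) (h : Df w c y < Df w y x) :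
    Df w c x = Df w c y := by
  have h1 := hF.e.ult c y x hcx (hF.e.pos _ _ hcy).2.2
  have h2 := hF.e.ult c x y hcy (hF.e.pos _ _ hcx).2.2
  rw [Df_comm hF x y] at h2
  rw [min_eq_left h.le] at h1
  rcases min_le_iff.1 h2 with h3 | h3
  · exact le_antisymm h3 h1
  · exact absurd h (not_lt.2 h3)

/-- defects with a good basis of the plane, sorted version -/
theorem Df_sorted {K : Type*} [Field K] {w : Fin 3 → ℝ} (hF : Facts K w) {p q x y c : A K 3}
    (hfr : Fr p q c) (hor : Or2 w p q) (hpq : dg w p < dg w q) (hlin : lin x y = lin p q)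
    (hfr' : Fr x y c) (hx : dg w x = dg w p) (hy : dg w y = dg w q)
    (h : Df w c p < Df w p q) :
    Df w c x = Df w c p ∧ Df w c y = Df w c p := by
  have hE : E w x y = E w p q := hF.o.elin p q x y (hF.f.nc _ _ _ hfr) hlin.symm
  have hD : Df w x y = Df w p q := by
    unfold Df
    rw [hE, hx, hy]
  have hxm : x ∈ lin p q := by
    rw [← hlin, hF.s.linmem]
    exact ⟨1, 0, 0, by simp⟩
  rw [hF.s.linmem] at hxm
  obtain ⟨a, b, d, hxe⟩ := hxm
  have hb : b = 0 := by
    by_contra hb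
    have := (hor a b d).2 hb
    rw [← hxe, hx] at this
    exact absurd hpq (not_lt.2 this)
  rw [hb, zero_smul, add_zero] at hxe
  have hx0 : 0 < dg w x := hF.f.pos _ _ _ hfr'
  have ha : a ≠ 0 := by
    rintro rfl
    rw [hxe, zero_smul, zero_add, hF.d.const] at hx0
    exact lt_irrefl _ hx0
  have h1 : Df w c x = Df w c p := by
    have e1 : E w x c = E w p c := by
      rw [hxe, hF.e.addc, hF.e.smul a p c ha]
    unfold Df
    rw [hF.e.comm c x, e1, hF.e.comm c p, hx]
  have hcx : c * x ≠ x * c := by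
    have := hF.f.nc x c y (hF.f.p23 _ _ _ hfr')
    exact fun h0 => this h0.symm
  have hcy : c * y ≠ y * c := by
    have := hF.f.nc y c x (hF.f.p23 _ _ _ (hF.f.p12 _ _ _ hfr'))
    exact fun h0 => this h0.symm
  refine ⟨h1, ?_⟩
  rw [← h1]
  exact Df_tr hF hcy hcx (by rw [h1, hD]; exact h)

/-- defects with a good basis of the plane -/
theorem Df_plane {K : Type*} [Field K] {w : Fin 3 → ℝ} (hF : Facts K w) {a b l m c : A K 3}
    (hfr : Fr a b c) (hnd : ND w a b) (hor : Or2 w l m) (hlin : lin l m = lin a b)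
    (hfr' : Fr l m c) (h : Df w c a < Df w a b) :
    Df w c b = Df w c a ∧ Df w c l = Df w c a ∧ Df w c m = Df w c a ∧ Df w l m = Df w a b := by
  have hca : c * a ≠ a * c := by
    have := hF.f.nc a c b (hF.f.p23 _ _ _ hfr)
    exact fun h0 => this h0.symm
  have hcb : c * b ≠ b * c := by
    have := hF.f.nc b c a (hF.f.p23 _ _ _ (hF.f.p12 _ _ _ hfr))
    exact fun h0 => this h0.symm
  have hor0 : Or2 w a b := hF.o.ndor a b hnd
  have hne : dg w a ≠ dg w b := hF.t.ndne a b hnd
  have hb : Df w c b = Df w c a := Df_tr hF hcb hca h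
  have hab : a * b ≠ b * a := hF.f.nc _ _ _ hfr
  have hE : E w l m = E w a b := hF.o.elin a b l m hab hlin.symm
  refine ⟨hb, ?_⟩
  rcases hF.o.or2deg a b l m hab hor0 hor hlin.symm with ⟨h1, h2⟩ | ⟨h1, h2⟩
  · have hD : Df w l m = Df w a b := by
      unfold Df
      rw [hE, h1, h2]
    rcases lt_or_gt_of_ne hne with h3 | h3
    · have := Df_sorted hF hfr hor0 h3 hlin hfr' h1 h2 h
      exact ⟨this.1, this.2, hD⟩
    · have := Df_sorted hF (hF.f.p12 _ _ _ hfr) (hF.o.or2symm _ _ hor0) h3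
        ((hF.s.lcomm m l).trans (hlin.trans (hF.s.lcomm a b))) (hF.f.p12 _ _ _ hfr') h2 h1
        (by rw [hb, Df_comm hF b a]; exact h)
      rw [hb] at this
      exact ⟨this.2, this.1, hD⟩
  · have hD : Df w l m = Df w a b := by
      unfold Df
      rw [hE, h1, h2]
      ring
    rcases lt_or_gt_of_ne hne with h3 | h3
    · have := Df_sorted hF hfr hor0 h3 ((hF.s.lcomm m l).trans hlin) (hF.f.p12 _ _ _ hfr') h2 h1 h
      exact ⟨this.2, this.1, hD⟩
    · have := Df_sorted hF (hF.f.p12 _ _ _ hfr) (hF.o.or2symm _ _ hor0) h3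
        (hlin.trans (hF.s.lcomm a b)) hfr' h1 h2
        (by rw [hb, Df_comm hF b a]; exact h)
      rw [hb] at this
      exact ⟨this.1, this.2, hD⟩

theorem lemb (K : Type*) [Field K] (w : Fin 3 → ℝ) (_hw : Gen w) (hF : Facts K w)
    (hstr : StrStatement K w) (h1 : LembiStatement K w) (h2 : LembiiStatement K w) :
    LembStatement K w := by
  intro ν a b c hA hB hN hC hle hfr hred hnd hmn hD
  rcases le_or_gt (vd w (sp a b c)) (sg w) with hs | hs
  · exact (no_nd hF hfr hs hnd).elim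
  have hor : Or2 w a b := hF.o.ndor a b hnd
  have hab : a * b ≠ b * a := hF.f.nc _ _ _ hfr
  obtain ⟨l, m, c', t, hf1, ho1, hlin, hsp, hf2, ho3, hf3, hred', hlt, hmt, hcase⟩ :=
    hstr ν a b c hA hfr hor hmn hred hs hle
  have hND : ND w l m := hF.o.ndlin a b l m hab hnd ho1 hlin.symm
  obtain ⟨hDb, hDl, hDm, hDlm⟩ := Df_plane hF hfr hnd ho1 hlin hf2 hD
  rcases hcase with ⟨hmn', ⟨k, hk⟩, hcd, ho3', hmt', hdt⟩ | ⟨⟨k, hk0, hk⟩, hcm, hct, hdt⟩
  · exfalso
    have hE1 : E w c' m = E w c m := by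
      unfold E
      rw [hk]
      congr 1
      rw [add_mul, mul_add, smul_mul_assoc, mul_smul_comm]
      abel
    have hD1 : Df w c' m = Df w c m := by
      unfold Df
      rw [hE1, hcd]
    have hcl : c' * l ≠ l * c' := by
      have := hF.f.nc l c' m (hF.f.p23 _ _ _ hf1)
      exact fun h0 => this h0.symm
    have hcm : c' * m ≠ m * c' := by
      have := hF.f.nc m c' l (hF.f.p23 _ _ _ (hF.f.p12 _ _ _ hf1))
      exact fun h0 => this h0.symm
    have hD2 : Df w c' l = Df w c' m :=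
      Df_tr hF hcl hcm (by rw [hD1, hDm, Df_comm hF m l, hDlm]; exact hD)
    refine h1 ν l m c' t hA ?_ ?_ ?_ hf1 hND ho3' ?_ hD2 ?_ hf3 hred' ?_ hmt hmt' hdt
    · rw [hsp]; exact hN
    · rw [hsp]; exact hC
    · rw [hsp]; exact hle
    · intro q hq
      rw [hF.s.blin l m a b hlin] at hq
      exact hmn' q hq
    · rw [hD2, hD1, hDm, hDlm]
      exact hD
    · rw [hsp]; exact hlt
  · have hmn1 : Mn w c l m := by
      intro q hq
      rw [hF.s.blin l m a b hlin] at hq
      exact hmn q hq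
    obtain ⟨e1, e2, e3⟩ := h2 ν l m c c' t k hB (hlt.trans_le hle) hf2 hND hmn1 hk0 hk hcm hf3
      hred' hct hdt
    have hz : Df w c a = 0 := by
      rw [← hDl]
      unfold Df
      rw [e2]
      ring
    have hE : E w l m = E w a b := hF.o.elin a b l m hab hlin.symm
    refine ⟨?_, ?_, ?_⟩
    · unfold Df at hz
      linarith
    · rw [hz] at hDb
      unfold Df at hDb
      linarith
    · rw [← hE, e3]
      congr 1
      rcases hF.o.or2deg a b l m hab hor ho1 hlin.symm with ⟨h3, h4⟩ | ⟨h3, h4⟩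
      · rw [← h3, ← h4, min_eq_left e1.le]
      · rw [← h3, ← h4, min_eq_right e1.le]

end Pool.Agent.Lib.MP_e1f7e2_al.FA.H27
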