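import Pool.Agent.Lib.MP_e1f7e2_al.FA.Iface

/-!
# LEMC: Lemma C from Lemma C'
-/

set_option autoImplicit false

namespace Pool.Agent.Lib.MP_e1f7e2_al.FA.H27

theorem lemc (K : Type*) [Field K] (w : Fin 3 → ℝ) (_hw : Gen w) (hF : Facts K w) :
    LemcStatement K w := by
  intro ν hCp m g l hfr hred hlt n k c c' q hk hkn hg hmn hq hqn hnd hlq
  by_contra hcon
  push Not at hcon
  have hfr' : Fr g m l := hF.f.p12 _ _ _ hfr
  have hg0 : 0 < dg w g := hF.f.pos _ _ _ hfr'
  have hm0 : 0 < dg w m := hF.f.pos _ _ _ hfr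
  have hmg : m * g ≠ g * m := hF.f.nc _ _ _ hfr
  have hq0 : 0 < dg w q := (hF.d.nn l).trans_lt hlq
  -- degrees of g and q
  have deg : ∀ (f : A K 3) (a : K) (j : ℕ), dg w (f - a • m ^ j) < dg w f →
      dg w f = j * dg w m := by
    intro f a j hf
    have ha : a ≠ 0 := by
      rintro rfl
      rw [zero_smul, sub_zero] at hf
      exact lt_irrefl _ hf
    have h1 := hF.t.dgtop f (a • m ^ j) hf
    rw [hF.d.smul a _ ha, hF.d.pow] at h1
    exact h1.symm
  have hgd := deg g c k hg
  have hqd := deg q c' n hqn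
  -- (X5a)
  have hxa := hF.t.xa m g q hmg hq hq0 hnd
  -- cancellation
  have hE : E w l g = E w q g := by
    have h1 : E w (-q) g = E w q g := by
      have := hF.e.smul (-1 : K) q g (by simp)
      rwa [neg_one_smul] at this
    have h2 := hF.e.add_left (-q) (l + q) g (by rw [h1]; exact hcon)
    have h3 : -q + (l + q) = l := by abel
    rw [h3, h1] at h2
    exact h2
  refine hCp m g l hfr hred hlt hmn (Or.inr (Or.inr ?_)) ⟨g, hF.s.bg m g, hg0,
    q * g - g * q, ?_, ?_⟩
  · unfold Df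
    rw [hE]
    have h1 : (k : ℝ) ≤ n - 1 := by
      have : k + 1 ≤ n := hkn
      have : ((k + 1 : ℕ) : ℝ) ≤ n := by exact_mod_cast this
      push_cast at this
      linarith
    have h2 : (k : ℝ) * dg w m ≤ (n - 1) * dg w m := mul_le_mul_of_nonneg_right h1 hm0.le
    rw [hqd] at hxa
    rw [hgd]
    linarith
  · exact (B m g).sub_mem ((B m g).mul_mem hq (hF.s.bg m g)) ((B m g).mul_mem (hF.s.bg m g) hq)
  · have h1 : l * g - g * l + (q * g - g * q) = (l + q) * g - g * (l + q) := by noncomm_ring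
    rw [h1]
    show E w (l + q) g < E w l g
    rw [hE]
    exact hcon

end Pool.Agent.Lib.MP_e1f7e2_al.FA.H27
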